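import Pool.Agent.Helper32.Lasc.Perm

/-!
Answer to Q1 of MP_5ec843_co: for every permutation `u`, the Grothendieck polynomials of the
stretched permutations `u^(N)` have a stable positive expansion into Lascoux polynomials of affine
weak compositions.
-/

namespace Pool.Agent.Results.MP_5ec843_co.StableExpansion

open MvPolynomial Finset Filter Pool.Agent.Helper32.Lasc

theorem lehmer_le {n : ℕ} (u : Equiv.Perm (Fin n)) (i : ℕ) : lehmer u i ≤ n := by
  unfold lehmer
  split_ifs
  · refine (Finset.card_filter_le _ _).trans ?_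
    simp
  · omega

theorem exists_stretched {n : ℕ} (u : Equiv.Perm (Fin n)) (N : ℕ) :
    ∃ (m : ℕ) (w : Equiv.Perm (Fin m)), ∀ i, lehmer w i = N * lehmer u i := by
  refine ⟨n + N * n, exists_perm (n + N * n) (fun i => N * lehmer u i) ?_ ?_⟩
  · intro i hi
    by_cases h : i < n
    · have h1 : N * lehmer u i ≤ N * n := Nat.mul_le_mul_left _ (lehmer_le u i)
      omega
    · simp [lehmer_ge u (not_lt.1 h)]
  · intro i hi
    have h : n ≤ i := by omega
    simp [lehmer_ge u h]

theorem Gr_of_lehmer {n m : ℕ} (u : Equiv.Perm (Fin n)) (w : Equiv.Perm (Fin m)) (N : ℕ)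
    (h : ∀ i, lehmer w i = N * lehmer u i) :
    grothendieck m w = Gr n (fun i => N * lehmer u i) := by
  rw [isGrothendieck_grothendieck.eq_Gr w]
  have h1 : lehmer w = fun i => N * lehmer u i := funext h
  rw [← Gr_trailing' (h := m) (h' := max m n) (le_max_left _ _) (fun i hi => lehmer_ge w hi), h1,
    Gr_trailing' (h := n) (h' := max m n) (le_max_right _ _)
      (fun i hi => by simp [lehmer_ge u hi])]

theorem Aff.data {n : ℕ} {γ : ℕ → ℕ → ℕ} (h : Aff n γ) :
    ∃ g d : ℕ →₀ ℤ, (∀ i, n ≤ i → g i = 0 ∧ d i = 0) ∧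
      ∀ᶠ N : ℕ in atTop, ∀ i < n, (γ N i : ℤ) = (N : ℤ) * g i + d i := by
  choose! g d hgd using h
  refine ⟨Finsupp.onFinset (range n) (fun i => if i < n then g i else 0)
      (fun i hi => by
        rw [Finset.mem_range]; by_contra hc; simp [hc] at hi),
    Finsupp.onFinset (range n) (fun i => if i < n then d i else 0)
      (fun i hi => by
        rw [Finset.mem_range]; by_contra hc; simp [hc] at hi), ?_, ?_⟩
  · intro i hi
    simp only [Finsupp.onFinset_apply]
    rw [if_neg (by omega), if_neg (by omega)]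
    exact ⟨rfl, rfl⟩
  · apply ev_all_lt
    intro i hi
    filter_upwards [hgd i hi] with N e
    simp only [Finsupp.onFinset_apply]
    rw [if_pos hi, if_pos hi, e]

/-- For every permutation `u` there are positive integers `c_j`, exponents `e_j` and affine weak
compositions `N γ_j + δ_j` such that for all large `N` (with `u^(N)` the permutation whose Lehmer
code is `N` times that of `u`)
`𝔊_{u^(N)} = ∑_j c_j β^{e_j} 𝔏_{N γ_j + δ_j}`. -/
theorem result {n : ℕ} (u : Equiv.Perm (Fin n)) :
    ∃ (t : ℕ) (c e : Fin t → ℕ) (γ δ : Fin t → (ℕ →₀ ℤ)), (∀ j, 0 < c j) ∧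
      ∃ N₀ : ℕ, ∀ N ≥ N₀,
        (∃ (m : ℕ) (w : Equiv.Perm (Fin m)), ∀ i, lehmer w i = N * lehmer u i) ∧
        ∃ α : Fin t → (ℕ →₀ ℕ), (∀ j i, (α j i : ℤ) = (N : ℤ) * γ j i + δ j i) ∧
          ∀ (m : ℕ) (w : Equiv.Perm (Fin m)), (∀ i, lehmer w i = N * lehmer u i) →
            grothendieck m w = ∑ j, (c j : R) * be ^ e j * lascoux (α j) := by
  have hA : Aff n (fun N i => N * lehmer u i) := by
    intro i _
    exact ⟨lehmer u i, 0, Eventually.of_forall fun N => by push_cast; ring⟩
  obtain ⟨l, hl, hev⟩ := Pos_Gr n _ hA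
  have hl' : ∀ j : Fin l.length, ∃ g d : ℕ →₀ ℤ, (∀ i, n ≤ i → g i = 0 ∧ d i = 0) ∧
      ∀ᶠ N : ℕ in atTop, ∀ i < n, ((l[j]).2 N i : ℤ) = (N : ℤ) * g i + d i := fun j =>
    Aff.data (hl _ (List.getElem_mem _)).1
  choose g d hgd0 hgd using hl'
  have hall : ∀ᶠ N : ℕ in atTop, ∀ j : Fin l.length, ∀ i < n,
      ((l[j]).2 N i : ℤ) = (N : ℤ) * g j i + d j i := Filter.eventually_all.2 hgd
  obtain ⟨N₀, hN₀⟩ := Filter.eventually_atTop.1 (hev.and hall)
  refine ⟨l.length, fun _ => 1, fun j => (l[j]).1, g, d, fun _ => Nat.one_pos, N₀, ?_⟩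
  intro N hN
  obtain ⟨h1, h2⟩ := hN₀ N hN
  refine ⟨exists_stretched u N, fun j => Finsupp.onFinset (range n)
    (fun i => if i < n then (l[j]).2 N i else 0) (fun i hi => by
        rw [Finset.mem_range]; by_contra hc; simp [hc] at hi), ?_, ?_⟩
  · intro j i
    simp only [Finsupp.onFinset_apply]
    by_cases hi : i < n
    · rw [if_pos hi, h2 j i hi]
    · rw [if_neg hi, (hgd0 j i (by omega)).1, (hgd0 j i (by omega)).2]
      simp
  · intro m w hw
    rw [Gr_of_lehmer u w N hw]
    refine (show Gr n (fun i => N * lehmer u i) = _ from h1).trans ?_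
    rw [← Fin.sum_univ_fun_getElem]
    apply Finset.sum_congr rfl
    intro j _
    rw [isLascoux_lascoux.eq_L n _ (by
      intro i hi
      simp only [Finsupp.onFinset_apply]
      rw [if_neg (by omega)]), Nat.cast_one, one_mul]
    congr 1
    apply L_congr
    intro i hi
    simp only [Finsupp.onFinset_apply]
    rw [if_pos hi]
    rfl

end Pool.Agent.Results.MP_5ec843_co.StableExpansion
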